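import Mathlib

set_option autoImplicit false

namespace Pool.Agent.H.MP_5d01ce_co

open Set Submodule Module Matroid

section rep
variable {α F V : Type} [Field F] [AddCommGroup V] [Module F V] {M : Matroid α} {v : α → V}

def Rp (F : Type) [Field F] [Module F V] (M : Matroid α) (v : α → V) : Prop :=
  ∀ I ⊆ M.E, (M.Indep I ↔ LinearIndepOn F v I)

theorem Rp.cl (h : Rp F M v) {X : Set α} (hX : X ⊆ M.E) {e : α} (he : e ∈ M.E) :
    e ∈ M.closure X ↔ v e ∈ span F (v '' X) := by
  obtain ⟨I, hI⟩ := M.exists_isBasis X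
  have k (x) (hx : x ∈ M.E) : x ∈ M.closure I ↔ v x ∈ span F (v '' I) := by
    have := (h I hI.indep.subset_ground).1 hI.indep
    rw [hI.indep.mem_closure_iff', h _ (insert_subset hx hI.indep.subset_ground),
      linearIndepOn_insert_iff]
    have : x ∈ I → v x ∈ span F (v '' I) := fun q => subset_span ⟨x, q, rfl⟩
    tauto
  rw [← hI.closure_eq_closure, k e he]
  refine ⟨fun q => span_mono (image_mono hI.subset) q, fun q => span_le.2 ?_ q⟩
  rintro _ ⟨x, hx, rfl⟩
  exact (k x (hX hx)).1 (hI.subset_closure hx)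

theorem rp_of_cl (h : ∀ X ⊆ M.E, ∀ e ∈ M.E, e ∈ M.closure X ↔ v e ∈ span F (v '' X)) :
    Rp F M v := fun I hI => by
  rw [indep_iff_forall_notMem_closure_sdiff', linearIndepOn_iff_notMem_span, and_iff_right hI]
  exact forall₂_congr fun e he => (h _ (sdiff_subset.trans hI) e (hI he)).not

theorem Rp.minor {U : Type} [AddCommGroup U] [Module F U] (h : Rp F M v) {C : Set α}
    (hC : C ⊆ M.E) (D : Set α) (π : V →ₗ[F] U) (hπ : LinearMap.ker π = span F (v '' C)) :
    Rp F (M ／ C ＼ D) (π ∘ v) := by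
  refine rp_of_cl fun X hX e he => ?_
  have h1 : X ⊆ M.E := fun x q => (hX q).1.1
  rw [delete_closure_eq_of_disjoint _ (disjoint_left.2 fun x q => (hX q).2), contract_closure_eq,
    mem_sdiff, mem_sdiff, and_iff_left he.2, and_iff_left he.1.2, h.cl (union_subset h1 hC) he.1.1,
    image_comp, ← map_span, image_union, span_union, ← hπ, ← comap_map_eq, mem_comap]
  rfl

theorem li_rk {I : Set α} (hI : I.Finite) (h : LinearIndepOn F v I) :
    finrank F (span F (v '' I)) = I.ncard := by
  have := hI.fintype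
  rw [image_eq_range, finrank_span_eq_card h, ← Nat.card_eq_fintype_card, Nat.card_coe_set_eq]

theorem Rp.rk (h : Rp F M v) (hE : M.E.Finite) {X : Set α} (hX : X ⊆ M.E) :
    M.eRk X = finrank F (span F (v '' X)) := by
  obtain ⟨I, hI⟩ := M.exists_isBasis X
  have : span F (v '' X) = span F (v '' I) := le_antisymm (span_le.2 (by
    rintro _ ⟨x, hx, rfl⟩
    exact (h.cl hI.indep.subset_ground (hX hx)).1 (hI.subset_closure hx)))
      (span_mono (image_mono hI.subset))
  have hf := hE.subset hI.indep.subset_ground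
  rw [hI.eRk_eq_encard, this, li_rk hf ((h I hI.indep.subset_ground).1 hI.indep),
    hf.cast_ncard_eq]

theorem vm (F : Type) [Field F] [Module F V] (v : α → V) {E : Set α} (hE : E.Finite) :
    ∃ M : Matroid α, M.E = E ∧ Rp F M v := by
  refine ⟨(IndepMatroid.ofFinite (E := E) hE (fun I => I ⊆ E ∧ LinearIndepOn F v I)
    ⟨empty_subset _, linearIndepOn_empty F v⟩ (fun _ _ h s => ⟨s.trans h.1, h.2.mono s⟩)
    (fun I J hI hJ h => ?_) fun _ h => h.1).matroid, rfl, fun I hI => and_iff_right hI⟩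
  by_contra z
  push Not at z
  have : FiniteDimensional F (span F (v '' I)) := .span_of_finite F ((hE.subset hI.1).image v)
  refine (finrank_mono (s := span F (v '' J)) (t := span F (v '' I)) (span_le.2 ?_)).not_gt
    (by rwa [li_rk (hE.subset hI.1) hI.2, li_rk (hE.subset hJ.1) hJ.2])
  rintro _ ⟨e, he, rfl⟩
  by_cases q : e ∈ I
  · exact subset_span ⟨e, q, rfl⟩
  by_contra r
  exact z e he q (insert_subset (hJ.1 he) hI.1) ((linearIndepOn_insert q).2 ⟨hI.2, r⟩)

end rep

section frame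
variable {α F V G : Type} [Field F] [AddCommGroup G] [Module F G]

/-- at most two nonzero coordinates in the first component -/
def S2 (x : (V → F) × G) : Prop := ∃ a b : V, ∀ w, w ≠ a → w ≠ b → x.1 w = 0

theorem pivot1 (y : (V → F) × G) (hy : S2 y) :
    ∃ π : ((V → F) × G) →ₗ[F] ((V → F) × G), LinearMap.ker π = span F {y} ∧
      ∀ x, S2 x → S2 (π x) := by
  by_cases h0 : y = 0
  · exact ⟨LinearMap.id, by simp [h0], fun x hx => hx⟩
  have key : ∀ φ : ((V → F) × G) →ₗ[F] F, φ y = 1 →
      LinearMap.ker (LinearMap.id - φ.smulRight y) = span F {y} := by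
    intro φ hφ
    ext x
    simp only [LinearMap.mem_ker, LinearMap.sub_apply, LinearMap.id_apply,
      LinearMap.smulRight_apply, mem_span_singleton, sub_eq_zero]
    constructor
    · intro h; exact ⟨_, h.symm⟩
    · rintro ⟨c, rfl⟩; simp [hφ]
  by_cases h1 : ∀ w, y.1 w = 0
  · obtain ⟨φ, hφ⟩ := Projective.exists_dual_eq_one F h0
    refine ⟨_, key φ hφ, ?_⟩
    rintro x ⟨a, b, hx⟩
    exact ⟨a, b, fun w ha hb => by simp [hx w ha hb, h1 w]⟩
  push Not at h1
  obtain ⟨w, hw⟩ := h1
  have two : ∀ x : (V → F) × G, S2 x → x.1 w ≠ 0 → ∃ b, ∀ u, u ≠ w → u ≠ b → x.1 u = 0 := by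
    rintro x ⟨a, b, hx⟩ hxw
    by_cases ha : w = a
    · exact ⟨b, ha ▸ hx⟩
    by_cases hb : w = b
    · exact ⟨a, fun u h1 h2 => hx u h2 (hb ▸ h1)⟩
    exact absurd (hx w ha hb) hxw
  refine ⟨_, key ((y.1 w)⁻¹ • ((LinearMap.proj w).comp (LinearMap.fst F _ _))) (by simp [hw]), ?_⟩
  intro x hx
  by_cases hxw : x.1 w = 0
  · obtain ⟨a, b, hx⟩ := hx
    exact ⟨a, b, fun u ha hb => by simp [hx u ha hb, hxw]⟩
  obtain ⟨b, hb⟩ := two y hy hw
  obtain ⟨d, hd⟩ := two x hx hxw
  refine ⟨b, d, fun u h1 h2 => ?_⟩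
  by_cases hu : u = w
  · subst hu; simp; field_simp; ring
  · simp [hb u hu h1, hd u hu h2]

theorem pivot (u : α → (V → F) × G) {C : Set α} (hC : C.Finite) (hu : ∀ e ∈ C, S2 (u e)) :
    ∃ π : ((V → F) × G) →ₗ[F] ((V → F) × G), LinearMap.ker π = span F (u '' C) ∧
      ∀ x, S2 x → S2 (π x) := by
  induction C, hC using Set.Finite.induction_on with
  | empty => exact ⟨LinearMap.id, by simp, fun x hx => hx⟩
  | @insert e C _ _ ih =>
    obtain ⟨π, h1, h2⟩ := ih fun e he => hu e (mem_insert_of_mem _ he)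
    obtain ⟨ρ, h3, h4⟩ := pivot1 (π (u e)) (h2 _ (hu e (mem_insert _ _)))
    refine ⟨ρ.comp π, ?_, fun x hx => h4 _ (h2 _ hx)⟩
    rw [LinearMap.ker_comp, h3, image_insert_eq, span_insert, ← h1, ← comap_map_eq, map_span,
      image_singleton]

theorem no_unif [Nonempty V] [FiniteDimensional F G] (hG : finrank F G = 4) {M : Matroid α}
    {u : α → (V → F) × G} (h : Rp F M u) (hu : ∀ e ∈ M.E, S2 (u e))
    (hn : M.E.encard = 1177) (hB : ∀ B, M.IsBase B ↔ B ⊆ M.E ∧ B.encard = 7) : False := by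
  classical
  have hE : M.E.Finite := finite_of_encard_eq_coe hn
  obtain ⟨B, hb⟩ := M.exists_isBase
  have hB7 := (hB B).1 hb
  have hBf : B.Finite := finite_of_encard_eq_coe hB7.2
  choose! a b hab using hu
  let U : Finset V := hBf.toFinset.image a ∪ hBf.toFinset.image b
  have hc : hBf.toFinset.card = 7 := by
    have := hBf.encard_eq_coe_toFinset_card
    rw [hB7.2] at this; exact_mod_cast this.symm
  have hU : U.card ≤ 14 := by
    have h1 := Finset.card_union_le (hBf.toFinset.image a) (hBf.toFinset.image b)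
    have h2 := Finset.card_image_le (s := hBf.toFinset) (f := a)
    have h3 := Finset.card_image_le (s := hBf.toFinset) (f := b)
    simp only [U]
    omega
  obtain ⟨b0, hb0⟩ : hBf.toFinset.Nonempty := Finset.card_pos.1 (by omega)
  have hu0 : a b0 ∈ U := Finset.mem_union_left _ (Finset.mem_image_of_mem _ hb0)
  have van : ∀ e ∈ M.E, ∀ w, w ∉ U → (u e).1 w = 0 := by
    intro e he w hw
    have h1 : u e ∈ span F (u '' B) := (h.cl hB7.1 he).1 (by rw [hb.closure_eq]; exact he)
    have h2 : span F (u '' B) ≤ LinearMap.ker ((LinearMap.proj w).comp (LinearMap.fst F (V → F) G)) := by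
      rw [span_le]
      rintro _ ⟨x, hx, rfl⟩
      have hx' : x ∈ hBf.toFinset := hBf.mem_toFinset.2 hx
      exact hab x (hB7.1 hx) w
        (fun q => hw (q ▸ Finset.mem_union_left _ (Finset.mem_image_of_mem _ hx')))
        (fun q => hw (q ▸ Finset.mem_union_right _ (Finset.mem_image_of_mem _ hx')))
    exact h2 h1
  let f : α → V × V := fun e => (if a e ∈ U then a e else a b0, if b e ∈ U then b e else a b0)
  have hEc : hE.toFinset.card = 1177 := by
    have := hE.encard_eq_coe_toFinset_card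
    rw [hn] at this; exact_mod_cast this.symm
  obtain ⟨y, -, hy⟩ := Finset.exists_lt_card_fiber_of_mul_lt_card_of_maps_to
    (s := hE.toFinset) (t := U ×ˢ U) (f := f) (n := 6)
    (fun e _ => Finset.mem_product.2 ⟨by simp only [f]; split_ifs <;> assumption,
      by simp only [f]; split_ifs <;> assumption⟩)
    (by rw [Finset.card_product, hEc]; nlinarith)
  obtain ⟨T, hT, hT7⟩ := Finset.exists_subset_card_eq (n := 7) hy
  have hTE : (T : Set α) ⊆ M.E := fun x hx =>
    hE.mem_toFinset.1 (Finset.mem_filter.1 (hT hx)).1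
  have hli : LinearIndepOn F u T :=
    (h _ hTE).1 ((hB T).2 ⟨hTE, by rw [encard_coe_eq_coe_finsetCard, hT7]; rfl⟩).indep
  have van2 : ∀ e ∈ T, ∀ w, w ≠ y.1 → w ≠ y.2 → (u e).1 w = 0 := by
    intro e he w h1 h2
    have h3 : f e = y := (Finset.mem_filter.1 (hT he)).2
    by_cases hw : w ∈ U
    · refine hab e (hTE he) w (fun q => h1 ?_) (fun q => h2 ?_)
      · rw [← h3]; simp only [f]; rw [if_pos (q ▸ hw)]; exact q
      · rw [← h3]; simp only [f]; rw [if_pos (q ▸ hw)]; exact q
    · exact van e (hTE he) w hw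
  let ψ : ((V → F) × G) →ₗ[F] F × F × G :=
    ((LinearMap.proj y.1).comp (LinearMap.fst F _ _)).prod
      (((LinearMap.proj y.2).comp (LinearMap.fst F _ _)).prod (LinearMap.snd F _ _))
  have hli2 : LinearIndepOn F (ψ ∘ u) T := by
    refine hli.map_injOn ψ (LinearMap.injOn_of_disjoint_ker le_rfl ?_)
    rw [Submodule.disjoint_def]
    intro x hx h0
    have h1 : x.1 y.1 = 0 ∧ x.1 y.2 = 0 ∧ x.2 = 0 := by
      simpa [ψ, Prod.ext_iff] using h0
    refine Prod.ext (funext fun w => ?_) h1.2.2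
    by_cases q1 : w = y.1
    · rw [q1]; exact h1.1
    by_cases q2 : w = y.2
    · rw [q2]; exact h1.2.1
    have h2 : span F (u '' T) ≤ LinearMap.ker ((LinearMap.proj w).comp (LinearMap.fst F (V → F) G)) := by
      rw [span_le]
      rintro _ ⟨e, he, rfl⟩
      exact van2 e he w q1 q2
    exact h2 hx
  have := LinearIndependent.fintype_card_le_finrank hli2
  simp [hG, hT7] at this

end frame

section reid
variable {K U : Type} [Field K] [AddCommGroup U] [Module K U]

theorem reid {p : ℕ} [Fact p.Prime] (ω : (Fin 3 → ZMod p) → U)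
    (H : ∀ a X, a ∈ span (ZMod p) X ↔ ω a ∈ span K (ω '' X)) : (p : K) = 0 := by
  have H0 : ∀ a, ω a = 0 → a = 0 := fun a h => by simpa [h] using H a ∅
  have H1 : ∀ a b, (∃ c : K, c • ω b = ω a) ↔ ∃ c : ZMod p, c • b = a := fun a b => by
    have := H a {b}
    rw [image_singleton, mem_span_singleton, mem_span_singleton] at this
    exact this.symm
  have H2 : ∀ a b c, (∃ s t : K, s • ω b + t • ω c = ω a) ↔
      ∃ s t : ZMod p, s • b + t • c = a := fun a b c => by
    have := H a {b, c}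
    rw [image_pair, mem_span_pair, mem_span_pair] at this
    exact this.symm
  set o := ω ![0, 0, 1] with ho
  obtain ⟨s, t, hst⟩ := (H2 ![1, 1, 0] ![1, 0, 0] ![0, 1, 0]).2
    ⟨1, 1, by ext i; fin_cases i <;> simp⟩
  have hs : s ≠ 0 := by
    rintro rfl
    obtain ⟨c, hc⟩ := (H1 ![1, 1, 0] ![0, 1, 0]).1 ⟨t, by simpa using hst⟩
    simpa using congrFun hc 0
  have ht : t ≠ 0 := by
    rintro rfl
    obtain ⟨c, hc⟩ := (H1 ![1, 1, 0] ![1, 0, 0]).1 ⟨s, by simpa using hst⟩
    simpa using congrFun hc 1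
  set e1 := ω ![1, 0, 0] with he1
  set e2 := ω ![0, 1, 0] with he2
  have ind : ∀ a b c : K, a • e1 + b • e2 + c • o = 0 → a = 0 ∧ b = 0 ∧ c = 0 := by
    intro a b c h
    have hb : b = 0 := by
      by_contra hb
      obtain ⟨x, y, hc⟩ := (H2 ![0, 1, 0] ![1, 0, 0] ![0, 0, 1]).1 ⟨-a / b, -c / b, by
        have : e2 = b⁻¹ • (b • e2) := by rw [smul_smul, inv_mul_cancel₀ hb, one_smul]
        rw [← he2, this, show b • e2 = -(a • e1) - c • o by linear_combination (norm := module) h]
        module⟩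
      simpa using congrFun hc 1
    subst hb
    have ha : a = 0 := by
      by_contra ha
      obtain ⟨x, hc⟩ := (H1 ![1, 0, 0] ![0, 0, 1]).1 ⟨-c / a, by
        have : e1 = a⁻¹ • (a • e1) := by rw [smul_smul, inv_mul_cancel₀ ha, one_smul]
        rw [← he1, this, show a • e1 = -(c • o) by linear_combination (norm := module) h]
        module⟩
      simpa using congrFun hc 0
    subst ha
    refine ⟨rfl, rfl, ?_⟩
    by_contra hc
    have : o = 0 := by simpa [hc] using h
    simpa using congrFun (H0 _ this) 2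
  have line : ∀ (a b : Fin 3 → ZMod p) (z : ZMod p) (c0 : K), c0 ≠ 0 →
      a = b + z • ![0, 0, 1] → (a 0 ≠ 0 ∨ a 1 ≠ 0) →
      ∃ c γ : K, c ≠ 0 ∧ ω a = c • (c0 • ω b + γ • o) := by
    intro a b z c0 hc0 hab ha
    obtain ⟨x, y, hxy⟩ := (H2 a b ![0, 0, 1]).2 ⟨1, z, by rw [hab, one_smul]⟩
    have hx : x ≠ 0 := by
      rintro rfl
      obtain ⟨c, hc⟩ := (H1 a ![0, 0, 1]).1 ⟨y, by simpa using hxy⟩
      rcases ha with ha | ha
      · exact ha (by simpa using (congrFun hc 0).symm)
      · exact ha (by simpa using (congrFun hc 1).symm)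
    refine ⟨x / c0, y * c0 / x, div_ne_zero hx hc0, ?_⟩
    rw [← hxy, smul_add, smul_smul, smul_smul]
    congr 2 <;> field_simp
  choose cA α hcA hA using fun x : ZMod p => line ![1, 0, x] ![1, 0, 0] x s hs
    (by ext i; fin_cases i <;> simp) (by simp)
  choose cB β hcB hB using fun x : ZMod p => line ![0, 1, x] ![0, 1, 0] x t ht
    (by ext i; fin_cases i <;> simp) (by simp)
  choose cD γ hcD hD using fun x : ZMod p => line ![1, 1, x] ![1, 1, 0] x 1 one_ne_zero
    (by ext i; fin_cases i <;> simp) (by simp)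
  have add : ∀ x y, γ (x + y) = α x + β y := by
    intro x y
    obtain ⟨l, m, h⟩ := (H2 ![1, 1, x + y] ![1, 0, x] ![0, 1, y]).2
      ⟨1, 1, by ext i; fin_cases i <;> simp⟩
    rw [hA, hB, hD, ← hst, ← he1, ← he2] at h
    obtain ⟨h1, h2, h3⟩ := ind ((l * cA x - cD (x + y)) * s) ((m * cB y - cD (x + y)) * t)
      (l * cA x * α x + m * cB y * β y - cD (x + y) * γ (x + y))
      (by linear_combination (norm := module) h)
    have h4 := sub_eq_zero.1 ((mul_eq_zero.1 h1).resolve_right hs)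
    have h5 := sub_eq_zero.1 ((mul_eq_zero.1 h2).resolve_right ht)
    rw [h4, h5] at h3
    apply mul_left_cancel₀ (hcD (x + y))
    linear_combination -h3
  have b0 : β 0 = 0 := by
    have h := hB 0
    rw [← he2] at h
    obtain ⟨-, -, h3⟩ := ind 0 (cB 0 * t - 1) (cB 0 * β 0) (by linear_combination (norm := module) -h)
    exact (mul_eq_zero.1 h3).resolve_left (hcB 0)
  have b1 : β 1 ≠ 0 := by
    intro h0
    have h := hB 1
    obtain ⟨c, hc⟩ := (H1 ![0, 1, 1] ![0, 1, 0]).1 ⟨cB 1 * t, by rw [h, h0]; module⟩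
    simpa using congrFun hc 2
  have step : ∀ n : ℕ, α n = α 0 + n * β 1 := by
    intro n
    induction n with
    | zero => simp
    | succ n ih =>
      have h1 := add n 1
      have h2 := add (n + 1) 0
      rw [add_zero, b0] at h2
      push_cast
      linear_combination ih + h1 - h2
  have := step p
  rw [ZMod.natCast_self] at this
  exact (mul_eq_zero.1 (by linear_combination -this : (p : K) * β 1 = 0)).resolve_right b1

end reid

end Pool.Agent.H.MP_5d01ce_co
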