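import Mathlib
import Pool.Agent.H.MP_5d01ce_co.A

set_option autoImplicit false

namespace Pool.Agent.H.MP_5d01ce_co

open Set Submodule Module

section girth

/-- every nonempty set of at most `t` edges has a leaf dart -/
def Leafy {V E : Type} (en : E × Bool → V) (t : ℕ) : Prop :=
  ∀ S : Finset E, S.Nonempty → S.card ≤ t →
    ∃ d : E × Bool, d.1 ∈ S ∧ ∀ d' : E × Bool, d'.1 ∈ S → en d' = en d → d' = d

def cov {V E : Type} [DecidableEq E] (en : E × Bool → V) :
    (E × (E → Bool)) × Bool → V × (E → Bool) :=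
  fun d => (en (d.1.1, d.2), Function.update d.1.2 d.1.1 (xor (d.1.2 d.1.1) d.2))

theorem cov_inj {V E : Type} [DecidableEq E] (en : E × Bool → V) (e : E) (x x' : E → Bool)
    (b : Bool) (h : cov en ((e, x), b) = cov en ((e, x'), b)) : x = x' := by
  have h2 := congrArg Prod.snd h
  simp only [cov] at h2
  funext f
  have := congrFun h2 f
  by_cases q : f = e
  · subst q
    simp only [Function.update_self] at this
    revert this
    cases x f <;> cases x' f <;> cases b <;> simp
  · simpa [Function.update_of_ne q] using this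

theorem cov_leaf {V E : Type} [DecidableEq E] (en : E × Bool → V) (S : Finset (E × (E → Bool)))
    (hS : S.Nonempty) (hi : ∀ a ∈ S, ∀ b ∈ S, a.1 = b.1 → a = b) (w : V × (E → Bool)) :
    ∃ d : (E × (E → Bool)) × Bool, d.1 ∈ S ∧ cov en d ≠ w ∧
      ∀ d' : (E × (E → Bool)) × Bool, d'.1 ∈ S → cov en d' = cov en d → d' = d := by
  classical
  induction S using Finset.strongInduction generalizing w with
  | H S ih =>
  obtain ⟨⟨e0, x0⟩, h0⟩ := hS
  let σ := !(w.2 e0)
  let d0 : (E × (E → Bool)) × Bool := ((e0, x0), xor (x0 e0) σ)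
  have s0 : (cov en d0).2 e0 = σ := by
    simp only [cov, d0, Function.update_self]
    cases x0 e0 <;> cases σ <;> rfl
  have s1 : ∀ d : (E × (E → Bool)) × Bool, d.1 = (e0, x0) → (cov en d).2 e0 = σ → d = d0 := by
    rintro ⟨_, b⟩ rfl h
    simp only [cov, Function.update_self] at h
    simp only [d0, ← h]
    cases x0 e0 <;> cases b <;> rfl
  have s2 : ∀ d : (E × (E → Bool)) × Bool, d.1 ∈ S → d.1 ≠ (e0, x0) →
      (cov en d).2 e0 = d.1.2 e0 := by
    intro d hd hne
    have : e0 ≠ d.1.1 := fun q => hne (hi _ hd _ h0 q.symm)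
    simp only [cov, Function.update_of_ne this]
  have s3 : ∀ y : V × (E → Bool), y.2 e0 = σ → y ≠ w := by
    rintro y h rfl
    simp [σ] at h
  let T := (S.erase (e0, x0)).filter (fun a : E × (E → Bool) => a.2 e0 = σ)
  have hT : ∀ d : (E × (E → Bool)) × Bool, d.1 ∈ S → (cov en d).2 e0 = σ → d = d0 ∨ d.1 ∈ T := by
    intro d hd h
    by_cases q : d.1 = (e0, x0)
    · exact Or.inl (s1 d q h)
    · exact Or.inr (Finset.mem_filter.2 ⟨Finset.mem_erase.2 ⟨q, hd⟩, (s2 d hd q).symm.trans h⟩)
  by_cases hTn : T.Nonempty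
  · have hsub : T ⊆ S := (Finset.filter_subset _ _).trans (Finset.erase_subset _ _)
    obtain ⟨d, h1, h2, h3⟩ := ih T
      (lt_of_le_of_lt (Finset.filter_subset _ _) (Finset.erase_ssubset h0)) hTn
      (fun a ha b hb => hi a (hsub ha) b (hsub hb)) (cov en d0)
    have h4 : (cov en d).2 e0 = σ := by
      have := Finset.mem_filter.1 h1
      rw [s2 d (hsub h1) (Finset.mem_erase.1 this.1).1]
      exact this.2
    refine ⟨d, hsub h1, s3 _ h4, fun d' hd' h => ?_⟩
    rcases hT d' hd' (h ▸ h4) with q | q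
    · exact absurd (q ▸ h).symm h2
    · exact h3 d' q h
  · refine ⟨d0, h0, s3 _ s0, fun d' hd' h => ?_⟩
    rcases hT d' hd' (h ▸ s0) with q | q
    · exact q
    · exact absurd ⟨_, q⟩ hTn

theorem Leafy.cov {V E : Type} [DecidableEq E] {en : E × Bool → V} {t : ℕ} (h : Leafy en t) :
    Leafy (cov en) (t + 1) := by
  classical
  intro S hS hc
  by_cases hi : ∀ a ∈ S, ∀ b ∈ S, a.1 = b.1 → a = b
  · obtain ⟨a, ha⟩ := hS
    obtain ⟨d, h1, -, h3⟩ := cov_leaf en S ⟨a, ha⟩ hi (en (a.1, true), a.2)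
    exact ⟨d, h1, h3⟩
  have hlt : (S.image Prod.fst).card < S.card := by
    refine lt_of_le_of_ne Finset.card_image_le fun q => hi fun a ha b hb hab => ?_
    exact Finset.card_image_iff.1 q ha hb hab
  obtain ⟨⟨e, b⟩, h1, h2⟩ := h (S.image Prod.fst) (hS.image _) (by omega)
  obtain ⟨⟨e', x⟩, h3, rfl⟩ := Finset.mem_image.1 h1
  refine ⟨((e', x), b), h3, ?_⟩
  rintro ⟨⟨f, y⟩, c⟩ h4 h5
  have h6 := h2 (f, c) (Finset.mem_image_of_mem _ h4) (congrArg Prod.fst h5)
  obtain ⟨rfl, rfl⟩ := Prod.mk.inj h6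
  rw [cov_inj en _ _ _ _ h5]

theorem exists_graph (c t : ℕ) : ∃ (V E : Type) (_ : Fintype V) (_ : Fintype E) (_ : Nonempty V)
    (en : E × Bool → V), Fintype.card E = c * Fintype.card V ∧ Leafy en t := by
  classical
  induction t with
  | zero =>
    exact ⟨Unit, Fin c, inferInstance, inferInstance, inferInstance, fun _ => (), by simp,
      fun S hS h => absurd (Finset.card_pos.2 hS) (by omega)⟩
  | succ t ih =>
    obtain ⟨V, E, _, _, _, en, h1, h2⟩ := ih
    refine ⟨V × (E → Bool), E × (E → Bool), inferInstance, inferInstance, inferInstance, cov en,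
      ?_, h2.cov⟩
    rw [Fintype.card_prod, Fintype.card_prod, h1, mul_assoc]

theorem exists_vecs (F : Type) [Field F] (c t : ℕ) : ∃ (V : Type) (_ : Fintype V) (_ : Nonempty V)
    (E : Finset ℕ) (v : ℕ → V → F), E.card = (c + 1) * Fintype.card V ∧
      (∀ e, ∃ a b, ∀ w, w ≠ a → w ≠ b → v e w = 0) ∧
      ∀ S ⊆ E, S.card ≤ t → LinearIndepOn F v S := by
  classical
  obtain ⟨V, E, _, _, _, en, h1, h2⟩ := exists_graph (c + 1) t
  have : Nonempty E := Fintype.card_pos_iff.1 (by rw [h1]; positivity)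
  obtain ⟨ι, hι⟩ := exists_injective_nat E
  let v0 : E → V → F := fun e => Pi.single (en (e, true)) 1 - Pi.single (en (e, false)) 1
  have hv : ∀ S : Finset E, S.card ≤ t → LinearIndepOn F v0 S := by
    intro S hS
    rw [linearIndepOn_finset_iff]
    intro f hf
    by_contra hne
    push Not at hne
    obtain ⟨i, hi, hfi⟩ := hne
    obtain ⟨⟨e, b⟩, h3, h4⟩ := h2 (S.filter fun e : E => f e ≠ 0)
      ⟨i, Finset.mem_filter.2 ⟨hi, hfi⟩⟩ ((Finset.card_filter_le _ _).trans hS)
    have h5 := congrFun hf (en (e, b))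
    rw [Finset.sum_apply, Finset.sum_eq_single e] at h5
    · have h6 := (Finset.mem_filter.1 h3).2
      have h7 : en (e, !b) ≠ en (e, b) := fun q => by simpa using h4 (e, !b) h3 q
      apply h6
      cases b
      · simpa [v0, Pi.single_eq_of_ne (show en (e, false) ≠ en (e, true) from h7.symm)] using h5
      · simpa [v0, Pi.single_eq_of_ne (show en (e, true) ≠ en (e, false) from h7.symm)] using h5
    · intro g hg hge
      by_cases q : f g = 0
      · simp [q]
      have h8 : ∀ c, en (e, b) ≠ en (g, c) := fun c r =>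
        hge (congrArg Prod.fst (h4 (g, c) (Finset.mem_filter.2 ⟨hg, q⟩) r.symm))
      simp [v0, Pi.single_apply, h8]
    · intro q
      exact absurd (Finset.mem_filter.1 h3).1 q
  refine ⟨V, inferInstance, inferInstance, Finset.univ.image ι, v0 ∘ Function.invFun ι, ?_, ?_, ?_⟩
  · rw [Finset.card_image_of_injective _ hι, Finset.card_univ, h1]
  · intro e
    refine ⟨en (Function.invFun ι e, true), en (Function.invFun ι e, false), fun w a b => ?_⟩
    simp [v0, Pi.single_apply, a, b]
  · intro S hS hc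
    obtain ⟨T, -, rfl⟩ := Finset.subset_image_iff.1 hS
    rw [Finset.card_image_of_injective _ hι] at hc
    rw [Finset.coe_image]
    refine LinearIndepOn.image_of_comp ι _ ?_
    have : (v0 ∘ Function.invFun ι) ∘ ι = v0 := by
      funext e
      simp [Function.leftInverse_invFun hι e]
    rw [this]
    exact hv T hc

end girth

theorem mader {α : Type} [DecidableEq α] (r : Finset α → ℕ) (E : Finset α) (k : ℕ)
    (hr : ∀ X ⊆ E, r X < k + 1 → X.card ≤ r X) (h1 : k + 1 ≤ r E)
    (h2 : (2 * k + 2) * r E < E.card) :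
    ∃ D ⊆ E, 2 * k + 2 < D.card ∧ ∀ X Y : Finset α, Disjoint X Y → X ∪ Y = D → ∀ j, 1 ≤ j →
      j ≤ k → j ≤ X.card → j ≤ Y.card → r D + j ≤ r X + r Y := by
  classical
  obtain ⟨D, hD, hmin⟩ := Finset.exists_min_image
    (E.powerset.filter fun D : Finset α => k + 1 ≤ r D ∧ (2 * k + 2) * r D < D.card + (2 * k + 2) * k)
    Finset.card ⟨E, by simp [h1]; omega⟩
  simp only [Finset.mem_filter, Finset.mem_powerset] at hD hmin
  obtain ⟨hDE, hD1, hD2⟩ := hD
  have hbig : 2 * k + 2 < D.card := by nlinarith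
  refine ⟨D, hDE, hbig, fun X Y hd hu j hj1 hjk hjX hjY => ?_⟩
  by_contra hlt
  have hc : X.card + Y.card = D.card := by rw [← hu, Finset.card_union_of_disjoint hd]
  have hX : X ⊆ E := (hu ▸ Finset.subset_union_left).trans hDE
  have hY : Y ⊆ E := (hu ▸ Finset.subset_union_right).trans hDE
  have m : ∀ Z ⊆ E, Z.card < D.card → k + 1 ≤ r Z →
      Z.card + (2 * k + 2) * k ≤ (2 * k + 2) * r Z := by
    intro Z hZ h h'
    by_contra q
    have := hmin Z ⟨hZ, h', by omega⟩
    omega
  by_cases a : r X < k + 1 <;> by_cases b : r Y < k + 1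
  · have := hr X hX a
    have := hr Y hY b
    omega
  · have := hr X hX a
    have := m Y hY (by omega) (by omega)
    have : (2 * k + 2) * (r Y + 1) ≤ (2 * k + 2) * r D := Nat.mul_le_mul_left _ (by omega)
    nlinarith
  · have := hr Y hY b
    have := m X hX (by omega) (by omega)
    have : (2 * k + 2) * (r X + 1) ≤ (2 * k + 2) * r D := Nat.mul_le_mul_left _ (by omega)
    nlinarith
  · have := m X hX (by omega) (by omega)
    have := m Y hY (by omega) (by omega)
    have : (2 * k + 2) * (r X + r Y) ≤ (2 * k + 2) * (r D + k) := Nat.mul_le_mul_left _ (by omega)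
    nlinarith

end Pool.Agent.H.MP_5d01ce_co
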