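import Mathlib
import Pool.Agent.H.MP_5d01ce_co.B

set_option autoImplicit false

namespace Pool.Agent.H.MP_5d01ce_co

open Set Submodule Module

section rk
variable {α F W : Type} [Field F] [AddCommGroup W] [Module F W]

noncomputable def rk (F : Type) [Field F] [Module F W] (v : α → W) (X : Finset α) : ℕ :=
  finrank F (span F (v '' X))

theorem rk_le (v : α → W) (X : Finset α) : rk F v X ≤ X.card := by
  classical
  rw [rk, ← Finset.coe_image]
  exact (finrank_span_finset_le_card _).trans Finset.card_image_le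

theorem rk_mono [FiniteDimensional F W] (v : α → W) {X Y : Finset α} (h : X ⊆ Y) :
    rk F v X ≤ rk F v Y := finrank_mono (span_mono (image_mono h))

theorem rk_li {v : α → W} {X : Finset α} (h : LinearIndepOn F v X) : rk F v X = X.card := by
  rw [rk, li_rk X.finite_toSet h, ncard_coe_finset]

variable {G : Type} [AddCommGroup G] [Module F G] [FiniteDimensional F W] [FiniteDimensional F G]

theorem rk_fst (v : α → W) (g : α → G) (X : Finset α) :
    rk F v X ≤ rk F (fun e => (v e, g e)) X := by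
  have : span F (v '' X) = (span F ((fun e => (v e, g e)) '' X)).map (LinearMap.fst F W G) := by
    rw [map_span, image_image]; rfl
  rw [rk, this]
  exact finrank_map_le _ _

theorem rk_lift (v : α → W) (g : α → G) (X : Finset α) :
    rk F (fun e => (v e, g e)) X ≤ rk F v X + finrank F G := by
  have h : span F ((fun e => (v e, g e)) '' X) ≤
      (span F (v '' X)).map (LinearMap.inl F W G) ⊔ LinearMap.range (LinearMap.inr F W G) := by
    rw [span_le]
    rintro _ ⟨e, he, rfl⟩
    have : (v e, g e) = LinearMap.inl F W G (v e) + LinearMap.inr F W G (g e) := by simp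
    beta_reduce
    rw [this]
    exact add_mem_sup (mem_map_of_mem (subset_span ⟨e, he, rfl⟩)) ⟨_, rfl⟩
  refine (finrank_mono h).trans ((finrank_add_le_finrank_add_finrank _ _).trans ?_)
  exact add_le_add (finrank_map_le _ _) (LinearMap.finrank_range_le _)

end rk

theorem core (F : Type) [Field F] [Fintype F] (k : ℕ) (hk : 1 ≤ k)
    (hq : 2 * (k + 4) ≤ Fintype.card F ^ 3) :
    ∃ (V : Type) (_ : Fintype V) (_ : Nonempty V) (D T C : Finset ℕ)
      (u : ℕ → (V → F) × ((Fin 3 → F) × F)) (z : (Fin 3 → F) → ℕ), (∀ e, S2 (u e)) ∧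
      (∀ X Y : Finset ℕ, Disjoint X Y → X ∪ Y = D → ∀ j, 1 ≤ j → j < k → j ≤ X.card →
        j ≤ Y.card → rk F u D + j ≤ rk F u X + rk F u Y) ∧
      (T ⊆ D ∧ T.card = k ∧ k ≤ (D \ T).card ∧ rk F u (D \ T) + 1 ≤ rk F u D) ∧
      C ⊆ D ∧ (∀ a, z a ∈ D) ∧ ∀ a X, a ∈ span F X ↔ u (z a) ∈ span F (u '' (C ∪ z '' X)) := by
  classical
  set q := Fintype.card F ^ 3 with hqd
  set K := q + k + (k + 4) with hK
  obtain ⟨V, _, _, E, v, hE, hv2, hli⟩ := exists_vecs F (2 * K + 2) (K + 1)
  have hV : 0 < Fintype.card V := Fintype.card_pos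
  have big : ∀ X ⊆ E, K + 1 ≤ X.card → K + 1 ≤ rk F v X := by
    intro X hX h
    obtain ⟨S, h1, h2⟩ := Finset.exists_subset_card_eq h
    rw [← h2, ← rk_li (hli S (h1.trans hX) h2.le)]
    exact rk_mono v h1
  have small : ∀ X ⊆ E, X.card ≤ K + 1 → rk F v X = X.card := fun X hX h => rk_li (hli X hX h)
  obtain ⟨D, hDE, hDc, hD⟩ := mader (rk F v) E K
    (fun X hX h => by
      by_cases c : K + 1 ≤ X.card
      · exact absurd (big X hX c) (by omega)
      · exact (small X hX (by omega)).ge)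
    (big E subset_rfl (by nlinarith))
    (by
      have : rk F v E ≤ Fintype.card V := by
        rw [← Module.finrank_fintype_fun_eq_card F]; exact finrank_le _
      nlinarith)
  have key1 : ∀ X ⊆ D, X.Nonempty → X.card ≤ K → span F (v '' ↑(D \ X)) = span F (v '' D) := by
    intro X hX hne hc
    have h1 := hD X (D \ X) Finset.disjoint_sdiff (Finset.union_sdiff_of_subset hX) X.card
      hne.card_pos hc le_rfl (by rw [Finset.card_sdiff_of_subset hX]; omega)
    have h2 := rk_le (F := F) v X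
    exact eq_of_le_of_finrank_le (span_mono (image_mono (Finset.coe_subset.2 Finset.sdiff_subset)))
      (show rk F v D ≤ rk F v (D \ X) by omega)
  obtain ⟨Z, hZD, hZc⟩ := Finset.exists_subset_card_eq (s := D) (n := q) (by omega)
  obtain ⟨T, hTD, hTc⟩ := Finset.exists_subset_card_eq (s := D \ Z) (n := k)
    (by rw [Finset.card_sdiff_of_subset hZD]; omega)
  have hTD' : T ⊆ D := hTD.trans Finset.sdiff_subset
  have hTZ : ∀ e ∈ T, e ∉ Z := fun e he => (Finset.mem_sdiff.1 (hTD he)).2
  let ζ : (Fin 3 → F) ≃ Z := Fintype.equivOfCardEq (by simp [hZc, hqd])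
  let z : (Fin 3 → F) → ℕ := fun a => ζ a
  have hzZ : ∀ a, z a ∈ Z := fun a => (ζ a).2
  have hzi : Function.Injective z := Subtype.val_injective.comp ζ.injective
  let g : ℕ → (Fin 3 → F) × F := fun e =>
    (if h : e ∈ Z then ζ.symm ⟨e, h⟩ else 0, if e ∈ T then 1 else 0)
  have gz : ∀ a, g (z a) = (a, 0) := by
    intro a
    have : z a ∉ T := fun h => hTZ _ h (hzZ a)
    simp only [g, dif_pos (hzZ a), if_neg this]
    simp [z]
  have gT : ∀ e ∈ T, g e = (0, 1) := fun e he => by simp only [g, dif_neg (hTZ e he), if_pos he]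
  have g0 : ∀ e, e ∉ Z → e ∉ T → g e = 0 := fun e h1 h2 => by
    simp only [g, dif_neg h1, if_neg h2]; rfl
  let u : ℕ → (V → F) × ((Fin 3 → F) × F) := fun e => (v e, g e)
  have hG : finrank F ((Fin 3 → F) × F) = 4 := by simp
  have hZT : (Z ∪ T).card ≤ q + k := (Finset.card_union_le _ _).trans (by omega)
  have hTne : T.Nonempty := Finset.card_pos.1 (by omega)
  have key2 : ∀ X ⊆ D, X.card ≤ k + 4 → ∀ Y : Set ℕ, (∀ e ∈ D, e ∉ X → e ∉ Z → e ∉ T → e ∈ Y) →
      ∀ e ∈ D, (v e, (0 : (Fin 3 → F) × F)) ∈ span F (u '' Y) := by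
    intro X hX hc Y hY e he
    have h1 := key1 (X ∪ (Z ∪ T)) (Finset.union_subset hX (Finset.union_subset hZD hTD'))
      (hTne.mono (Finset.subset_union_right.trans Finset.subset_union_right))
      ((Finset.card_union_le _ _).trans (by omega))
    have h2 : v e ∈ span F (v '' ↑(D \ (X ∪ (Z ∪ T)))) := h1 ▸ subset_span ⟨e, he, rfl⟩
    have h3 := mem_map_of_mem (f := LinearMap.inl F (V → F) ((Fin 3 → F) × F)) h2
    rw [map_span] at h3
    refine span_mono ?_ h3
    rintro _ ⟨_, ⟨x, hx, rfl⟩, rfl⟩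
    simp only [Finset.coe_sdiff, Finset.coe_union, mem_diff, mem_union, Finset.mem_coe,
      not_or] at hx
    exact ⟨x, hY x hx.1 hx.2.1 hx.2.2.1 hx.2.2.2, by simp [u, g0 x hx.2.2.1 hx.2.2.2]⟩
  have key3 : ∀ X Y : Finset ℕ, Disjoint X Y → X ∪ Y = D → X.card < k + 4 → ∀ j, j < k →
      j ≤ X.card → rk F u D + j ≤ rk F u X + rk F u Y := by
    intro X Y hd hu hc j hj hjX
    have hX : X ⊆ D := hu ▸ Finset.subset_union_left
    have hYm : ∀ e ∈ D, e ∉ X → e ∈ Y := fun e he h =>
      (Finset.mem_union.1 (hu ▸ he : e ∈ X ∪ Y)).resolve_left h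
    have hrX : X.card ≤ rk F u X :=
      (small X (hX.trans hDE) (by omega)).ge.trans (rk_fst v g X)
    have a1 := key2 X hX hc.le Y fun e he h _ _ => hYm e he h
    have a2 : ∀ e ∈ D, e ∉ X → ((0 : V → F), g e) ∈ span F (u '' Y) := by
      intro e he h
      have := sub_mem (subset_span (R := F) (mem_image_of_mem u (show e ∈ (Y : Set ℕ) from
        hYm e he h))) (a1 e he)
      simpa [u] using this
    have a3 : ∀ a : Fin 3 → F, ((0 : V → F), (a, (0 : F))) ∈ span F (u '' Y) := by
      intro a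
      let B := Finset.univ.filter fun b : Fin 3 → F => z b ∈ X
      have hB : B.card ≤ X.card := Finset.card_le_card_of_injOn z
        (fun b hb => (Finset.mem_filter.1 hb).2) hzi.injOn
      obtain ⟨b, -, hb⟩ := Finset.exists_mem_notMem_of_card_lt_card
        (s := B ∪ B.image fun c => a - c) (t := Finset.univ) (by
          have h1 := Finset.card_union_le B (B.image fun c => a - c)
          have h2 := Finset.card_image_le (s := B) (f := fun c => a - c)
          have h3 : (Finset.univ : Finset (Fin 3 → F)).card = q := by simp [hqd]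
          omega)
      rw [Finset.mem_union, not_or] at hb
      have b1 : z b ∉ X := fun h => hb.1 (Finset.mem_filter.2 ⟨Finset.mem_univ _, h⟩)
      have b2 : z (a - b) ∉ X := fun h => hb.2 (Finset.mem_image.2
        ⟨a - b, Finset.mem_filter.2 ⟨Finset.mem_univ _, h⟩, by simp⟩)
      have := add_mem (a2 _ (hZD (hzZ b)) b1) (a2 _ (hZD (hzZ (a - b))) b2)
      simpa [gz] using this
    let e4 : (V → F) × ((Fin 3 → F) × F) := (0, (0, 1))
    have a4 : span F (u '' D) ≤ span F (u '' Y) ⊔ span F {e4} := by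
      rw [span_le]
      rintro _ ⟨e, he, rfl⟩
      have : u e = ((v e, 0) + (0, ((g e).1, 0))) + (g e).2 • e4 := by simp [u, e4]
      rw [this]
      exact add_mem_sup (add_mem (a1 e he) (a3 _)) (smul_mem _ _ (subset_span rfl))
    by_cases hTX : T ⊆ X
    · have h1 := Finset.card_le_card hTX
      have h2 := (finrank_mono a4).trans (finrank_add_le_finrank_add_finrank _ _)
      have h3 : finrank F (span F {e4}) = 1 := finrank_span_singleton (by simp [e4])
      have h4 : rk F u D ≤ rk F u Y + 1 := h3 ▸ h2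
      omega
    · obtain ⟨t, h1, h2⟩ := Finset.not_subset.1 hTX
      have h3 := a2 t (hTD' h1) h2
      rw [gT t h1] at h3
      have h4 : rk F u D ≤ rk F u Y := finrank_mono
        (a4.trans (sup_le le_rfl ((span_singleton_le_iff_mem _ _).2 h3)))
      omega
  refine ⟨V, inferInstance, inferInstance, D, T, D \ Z, u, z, hv2, ?_, ⟨hTD', hTc, ?_, ?_⟩,
    Finset.sdiff_subset, fun a => hZD (hzZ a), fun a X => ⟨fun h => ?_, fun h => ?_⟩⟩
  · intro X Y hd hu j hj1 hjk hjX hjY
    by_cases c1 : X.card < k + 4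
    · exact key3 X Y hd hu c1 j hjk hjX
    by_cases c2 : Y.card < k + 4
    · rw [add_comm (rk F u X)]
      exact key3 Y X hd.symm ((Finset.union_comm Y X).trans hu) c2 j hjk hjY
    have h1 := hD X Y hd hu (k + 4) (by omega) (by omega) (by omega) (by omega)
    have h2 : rk F v X ≤ rk F u X := rk_fst v g X
    have h3 : rk F v Y ≤ rk F u Y := rk_fst v g Y
    have h4 : rk F u D ≤ rk F v D + _ := rk_lift v g D
    omega
  · rw [Finset.card_sdiff_of_subset hTD']; omega
  · refine finrank_lt_finrank_of_lt (lt_of_le_of_ne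
      (span_mono (image_mono (Finset.coe_subset.2 Finset.sdiff_subset))) fun h => ?_)
    obtain ⟨t, ht⟩ := hTne
    have h1 : u t ∈ span F (u '' ↑(D \ T)) := h ▸ subset_span ⟨t, hTD' ht, rfl⟩
    have h2 : span F (u '' ↑(D \ T)) ≤
        LinearMap.ker ((LinearMap.snd F _ _).comp (LinearMap.snd F _ _)) := by
      rw [span_le]
      rintro _ ⟨e, he, rfl⟩
      simp [u, g, (Finset.mem_sdiff.1 he).2]
    simpa [u, gT t ht] using h2 h1
  · have a1 := key2 ∅ (Finset.empty_subset _) (by simp) (↑(D \ Z) ∪ z '' X)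
      fun e he _ h _ => Or.inl (Finset.mem_sdiff.2 ⟨he, h⟩)
    have h1 := mem_map_of_mem (f := (LinearMap.inr F (V → F) ((Fin 3 → F) × F)).comp
      (LinearMap.inl F (Fin 3 → F) F)) h
    rw [map_span] at h1
    have h2 : ((0 : V → F), (a, (0 : F))) ∈ span F (u '' (↑(D \ Z) ∪ z '' X)) := by
      refine span_le.2 ?_ h1
      rintro _ ⟨x, hx, rfl⟩
      have := sub_mem (subset_span (R := F) (mem_image_of_mem u
        (show z x ∈ (↑(D \ Z) ∪ z '' X : Set ℕ) from Or.inr ⟨x, hx, rfl⟩)))
        (a1 _ (hZD (hzZ x)))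
      simpa [u, gz] using this
    simpa [u, gz] using add_mem (a1 _ (hZD (hzZ a))) h2
  · have h1 := mem_map_of_mem (f := (LinearMap.fst F (Fin 3 → F) F).comp
      (LinearMap.snd F (V → F) ((Fin 3 → F) × F))) h
    rw [map_span] at h1
    have h2 : a = ((LinearMap.fst F (Fin 3 → F) F).comp
      (LinearMap.snd F (V → F) ((Fin 3 → F) × F))) (u (z a)) := by simp [u, gz]
    rw [h2]
    refine span_le.2 ?_ h1
    rintro _ ⟨_, ⟨e, he | ⟨x, hx, rfl⟩, rfl⟩, rfl⟩
    · simp [u, g, (Finset.mem_sdiff.1 he).2]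
    · simpa [u, gz] using subset_span hx

end Pool.Agent.H.MP_5d01ce_co
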